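import Pool.Agent.helper37.NG.Spec
import Pool.Agent.helper55.NK.Base

set_option autoImplicit false

namespace Pool.Agent.helper37.NG

open Finset Pool.Agent.NK Pool.Agent.helper37.NF

private theorem CH3_aux (h1 : G31_stmt) (h2 : G32_stmt) (h3 : SM3_stmt) (h4 : MO3_stmt) (h5 : CH4_stmt) (k : ℕ) :
    ∀ (a b : ℕ) (C : Finset (ℕ × ℕ)), 2 ≤ k → 3 * k ≤ a + b → ¬ (a + b = 12 ∧ k = 4) →
      (∀ c ∈ C, 1 ≤ c.1 ∧ 1 ≤ c.2 ∧ c.1 + c.2 ≤ k) → IsCh C →
      ∑ c ∈ C, a.choose c.1 * b.choose c.2 ≤ MV (a + b) k := by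
  induction k using Nat.strong_induction_on with
  | _ k ih =>
    intro a b C hk hab hne C1 hch
    by_cases h10 : 4 * k ≤ a + b
    · exact h5 a b k C hk h10 C1 hch
    rcases C.eq_empty_or_nonempty with hE | hE
    · rw [hE, sum_empty]
      exact Nat.zero_le _
    obtain ⟨m, hm, hmax⟩ := exists_max_image C (fun c => c.1) hE
    have hlt : ∀ c ∈ C.erase m, c.1 < m.1 ∧ c.2 < m.2 := by
      intro c hc
      rw [mem_erase] at hc
      rcases hch c hc.2 m hm hc.1 with h | h
      · exact h
      · have := hmax c hc.2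
        omega
    obtain ⟨hm1, hm2, hmk⟩ := C1 m hm
    have hmo : MV (a + b) (m.1 + m.2) ≤ MV (a + b) k := h4 (a + b) (m.1 + m.2) k (by omega) hmk hab
    rcases (C.erase m).eq_empty_or_nonempty with hD | ⟨c, hc⟩
    · rw [← add_sum_erase C (fun c => a.choose c.1 * b.choose c.2) hm, hD, sum_empty, add_zero]
      exact (Base.prod_le a b m.1 m.2 hm1 hm2 (by omega)).trans hmo
    · have e1 := hlt c hc
      have e2 := C1 c (mem_of_mem_erase hc)
      have hi : 2 ≤ m.1 := by omega
      have hj : 2 ≤ m.2 := by omega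
      by_cases h10t : 4 * (m.1 + m.2) ≤ a + b
      · refine (h5 a b (m.1 + m.2) C (by omega) h10t ?_ hch).trans hmo
        intro d hd
        obtain ⟨d1, d2, -⟩ := C1 d hd
        refine ⟨d1, d2, ?_⟩
        rcases eq_or_ne d m with rfl | hne
        · exact le_rfl
        · have := hlt d (mem_erase.2 ⟨hne, hd⟩)
          omega
      · have hch' : IsCh (C.erase m) := fun c hc d hd hne =>
          hch c (mem_of_mem_erase hc) d (mem_of_mem_erase hd) hne
        have hD := ih (m.1 + m.2 - 2) (by omega) a b (C.erase m) (by omega) (by omega) (by omega) (by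
          intro d hd
          obtain ⟨d1, d2, -⟩ := C1 d (mem_of_mem_erase hd)
          have := hlt d hd
          exact ⟨d1, d2, by omega⟩) hch'
        rw [← add_sum_erase C (fun c => a.choose c.1 * b.choose c.2) hm]
        refine (Nat.add_le_add_left hD _).trans (le_trans ?_ hmo)
        rcases Nat.lt_or_ge (m.1 + m.2) 11 with h12 | h12
        · exact h3 a b m.1 m.2 hi hj (by omega) (by omega) (by omega) (by omega)
        · have t1 := h1 a b m.1 m.2 hi hj (by omega)
          have t2 := h2 (a + b) (m.1 + m.2) h12 (by omega) (by omega)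
          have t3 : ((a.choose m.1 * b.choose m.2 + MV (a + b) (m.1 + m.2 - 2) : ℕ) : ℝ) ≤
              ((MV (a + b) (m.1 + m.2) : ℕ) : ℝ) := by
            push_cast
            push_cast at t1 t2
            linarith
          exact_mod_cast t3

theorem CH3 (h1 : G31_stmt) (h2 : G32_stmt) (h3 : SM3_stmt) (h4 : MO3_stmt) (h5 : CH4_stmt) : CH3_stmt :=
  fun a b k C hk hab hne hC hch => CH3_aux h1 h2 h3 h4 h5 k a b C hk hab hne hC hch

end Pool.Agent.helper37.NG
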