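import Pool.Agent.helper37.NG.Spec
import Pool.Agent.helper55.NK.Base

set_option autoImplicit false

namespace Pool.Agent.helper37.NG

open Finset Pool.Agent.NK Pool.Agent.helper37.NF

theorem MO3_mono (N r : ℕ) (d : ℕ) (h : 2 * (r + d) ≤ N) : N.choose r ≤ N.choose (r + d) := by
  induction d with
  | zero => exact le_rfl
  | succ d ih =>
    have h1 := ih (by omega)
    have h2 : N.choose (r + d) ≤ N.choose (r + d + 1) :=
      Nat.choose_le_succ_of_lt_half_left (by omega)
    exact h1.trans h2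

theorem MO3_one (m e : ℕ) (h1 : 1 ≤ e) (h2 : e + 1 ≤ m) : m ≤ m.choose e := by
  rcases le_or_gt (2 * e) m with h | h
  · obtain ⟨d, hd⟩ : ∃ d, e = 1 + d := ⟨e - 1, by omega⟩
    have := MO3_mono m 1 d (by omega)
    rw [Nat.choose_one_right, ← hd] at this
    exact this
  · have h3 : m.choose (m - e) = m.choose e := Nat.choose_symm (by omega)
    rw [← h3]
    obtain ⟨d, hd⟩ : ∃ d, m - e = 1 + d := ⟨m - e - 1, by omega⟩
    have := MO3_mono m 1 d (by omega)
    rw [Nat.choose_one_right, ← hd] at this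
    exact this

theorem MO3 : MO3_stmt := by
  intro n s t hs hst hn
  rcases Nat.eq_or_lt_of_le hst with rfl | hlt
  · exact le_rfl
  unfold MV
  obtain ⟨q, hqd⟩ : ∃ q, q = (n + 1) / s := ⟨_, rfl⟩
  have h1 : (n - (n + 1) / s).choose (s - 1) ≤ (n - (n + 1) / s).choose (t - 1) := by
    rcases Nat.eq_or_lt_of_le hs with rfl | hs3
    · have hq : (n + 1) / 2 ≤ (n + 1) / 2 := le_rfl
      rw [show 2 - 1 = 1 from rfl, Nat.choose_one_right]
      exact MO3_one _ _ (by omega) (by omega)
    · have hq : (n + 1) / s ≤ (n + 1) / 3 := Nat.div_le_div_left hs3 (by norm_num)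
      rw [← hqd] at hq ⊢
      obtain ⟨d, hd⟩ : ∃ d, t - 1 = (s - 1) + d := ⟨t - s, by omega⟩
      rw [hd]
      apply MO3_mono
      rw [← hd]
      omega
  calc (n + 1) / s * (n - (n + 1) / s).choose (s - 1)
      ≤ (n + 1) / s * (n - (n + 1) / s).choose (t - 1) := Nat.mul_le_mul_left _ h1
    _ ≤ _ := Pool.Agent.NK.Base.block_le n t (by omega) (by omega) _

end Pool.Agent.helper37.NG
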