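import Pool.Agent.helper37.NG.Spec
import Pool.Agent.helper37.NK.K4

set_option autoImplicit false

namespace Pool.Agent.helper37.NG

open Finset Pool.Agent.NK

/-- The value `N(n,k) = M(n,k)` for `n ≥ 3k`, `(n,k) ≠ (12,4)`. -/
theorem MAIN (hPER : PER_stmt) (hCH3 : CH3_stmt) (n k : ℕ) (hk : 2 ≤ k) (hkn : 3 * k ≤ n)
    (hne : ¬ (n = 12 ∧ k = 4)) :
    IsGreatest (Pool.Agent.helper37.NK.sizes n k) (MV n k) := by
  constructor
  · exact Pool.Agent.helper37.NK.lowerM n k k hk le_rfl (by omega)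
  · apply Pool.Agent.helper37.NK.upper hPER
    intro a b hab C hC hch
    have h := hCH3 a b k C hk (by omega) (by omega) hC hch
    rw [hab] at h
    exact h

end Pool.Agent.helper37.NG
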