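import Pool.Agent.helper37.NF.All
import Pool.Agent.helper37.NG.Main
import Pool.Agent.helper37.NG.CH3
import Pool.Agent.helper37.NG.MO3
import Pool.Agent.helper76.NG.BA3
import Pool.Agent.helper44.NG.RE3
import Pool.Agent.helper63.NG.LC3
import Pool.Agent.helper70.NG.G31
import Pool.Agent.helper41.NG.G32
import Pool.Agent.helper7.NG.PO3
import Pool.Agent.helper46.NG.PO4
import Pool.Agent.helper67.NG.RT3
import Pool.Agent.helper93.NG.SM32

set_option autoImplicit false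

namespace Pool.Agent.helper37.NG

open Pool.Agent.NK Pool.Agent.helper37.NF

theorem BA3f : BA3_stmt := BA3 Pool.Agent.helper64.NK.UNI

theorem G31f : G31_stmt := G31 AVG BA3f RE3 (LC3 RE3)

theorem G32f : G32_stmt := G32 PO3 PO4 RT3

theorem CH3f : CH3_stmt := CH3 G31f G32f (SM3 Pool.Agent.helper64.NK.UNI) MO3 CH4f

/-- `N(n,k) = M(n,k)` for `n ≥ 3k`, except for `(n,k) = (12,4)`. -/
theorem ALL (n k : ℕ) (hk : 2 ≤ k) (hkn : 3 * k ≤ n) (hne : ¬ (n = 12 ∧ k = 4)) :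
    IsGreatest (Pool.Agent.helper37.NK.sizes n k) (MV n k) :=
  MAIN Pool.Agent.helper4.NK.PER CH3f n k hk hkn hne

/-- The complete answer for `k ≤ 4`. -/
theorem ALL4 (n k : ℕ) (hk : 1 ≤ k) (hk4 : k ≤ 4) (hkn : k ≤ n) :
    IsGreatest (Pool.Agent.helper37.NK.sizes n k) (Pool.Agent.helper37.NK.val n k) :=
  Pool.Agent.helper37.NK.K4 Pool.Agent.helper4.NK.PER Pool.Agent.helper35.NK.MON Pool.Agent.helper55.NK.TWOf n k hk hk4 hkn

end Pool.Agent.helper37.NG
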