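import Pool.Agent.helper37.NF.Spec

/-!
# Project NG (MP_7e34bc_co, Q2): `N(n,k) = M(n,k)` for all `n ≥ 3 k` except `(n,k) = (12,4)` (second step after project NF, `n ≥ 4 k`)

RULES. Row `ng:XXX`: file `Pool/Agent/<seat>/NG/XXX.lean`, `import Pool.Agent.helper37.NG.Spec` (G32, MO3, CH3 also `import Pool.Agent.helper55.NK.Base`), `set_option autoImplicit false`,
`namespace Pool.Agent.helper37.NG`, `open Finset Pool.Agent.NK Pool.Agent.helper37.NF`, theorem line as in the note (the other rows are hypotheses, so all rows are independent); auxiliary lemmas with prefix `XXX_`.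
Mathlib only, no native_decide (`decide +kernel` is fine). A FALSE or awkward statement: one line to helper37 at once.
-/

set_option autoImplicit false

namespace Pool.Agent.helper37.NG

open Finset Pool.Agent.NK Pool.Agent.helper37.NF

/-- `C(3i, i)` -/
def c3 (i : ℕ) : ℕ := (3 * i).choose i

/-- the ratio `c3 (i+1) / c3 i` -/
noncomputable def sig (x : ℝ) : ℝ := 3 * (3 * x + 1) * (3 * x + 2) / ((2 * x + 1) * (2 * x + 2))

/-- `15 c3 (t-2) / c3 t` -/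
noncomputable def g3 (t : ℝ) : ℝ :=
  20 * t * (t - 1) * (2 * t - 1) * (2 * t - 3) / (3 * (3 * t - 5) * (3 * t - 4) * (3 * t - 2) * (3 * t - 1))

/-- **BA3** (short, from UNI of helper55/NK/Spec). `i (3 (i+j) + 1) / (i+j) = 3 i` as `i < i + j`. -/
def BA3_stmt : Prop := ∀ a b i j : ℕ, 1 ≤ i → 1 ≤ j → a + b = 3 * (i + j) →
  a.choose i * b.choose j ≤ c3 i * c3 j

/-- **RE3** (short). `c3 i * i! * (2i)! = (3i)!` (`Nat.choose_mul_factorial_mul_factorial`), the same for `i + 1`, `Nat.factorial_succ`; `(3i+3)/(i+1) = 3`. -/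
def RE3_stmt : Prop := ∀ i : ℕ, (c3 (i + 1) : ℝ) = sig i * c3 i

/-- **LC3** (short-medium, from RE3). `sig` is monotone on the nonnegative reals: each factor `(3x+1)/(2x+1)`, `(3x+2)/(2x+2)` is. Wlog `i ≤ j`; induction on `i`: for `3 ≤ i ≤ j`,
`c3 i c3 j = sig (i-1) c3 (i-1) c3 j ≤ sig j c3 (i-1) c3 j = c3 (i-1) c3 (j+1)`. `c3 2 = 15`. -/
def LC3_stmt : Prop := ∀ i j : ℕ, 2 ≤ i → 2 ≤ j → c3 i * c3 j ≤ 15 * c3 (i + j - 2)

/-- **G31** (short-medium, from AVG of helper37/NF/Spec, BA3, RE3, LC3). `t = i + j`, `N = 3 t`, `N.choose t = c3 t`; `c3 t = sig (t-1) sig (t-2) c3 (t-2)` (RE3 twice) and `g3 t = 15 / (sig (t-1) sig (t-2))` (`field_simp`, `ring`; all factors are positive),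
so `g3 t * c3 t = 15 c3 (t-2) ≥ c3 i c3 j ≥ C(a,i) C(b,j)` for `a + b = N`. Then AVG with `κ = g3 t`. -/
def G31_stmt : Prop := ∀ a b i j : ℕ, 2 ≤ i → 2 ≤ j → 3 * (i + j) ≤ a + b →
  (a.choose i : ℝ) * (b.choose j : ℝ) ≤ g3 ((i + j : ℕ) : ℝ) * ((a + b).choose (i + j) : ℝ)

/-- **PO3** (short). Cancel `t` and multiply: `D(n) = 9 (n-2t+1)(3t-5)(3t-4)(3t-2)(3t-1) - 20 (t-1)(2t-1)(2t-3) n (n-1) ≥ 0`. With `n = 3t + u`, `0 ≤ u ≤ t`, `D` is concave in `u`: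
`t D = (t-u) D(3t) + u D(4t) + 20 (t-1)(2t-1)(2t-3) u (t-u) t`, and `D(3t) = (3t-1)(3t⁴ + 72t³ - 525t² + 846t - 360) ≥ 0`, `D(4t) ≥ 0` for `t ≥ 11` (`t = 11 + v`, all coefficients are nonnegative). -/
def PO3_stmt : Prop := ∀ t n : ℕ, 11 ≤ t → 3 * t ≤ n → n < 4 * t →
  g3 (t : ℝ) * ((n : ℝ) * (n - 1)) ≤ 3 * (t : ℝ) * ((n : ℝ) - 2 * t + 1)

/-- **PO4** (short). `n = 4 t - r` with `1 ≤ r ≤ 9` (nine cases), `t = 11 + v`: after multiplication by the (positive) denominator of `g3` a polynomial inequality in `v` (coefficients: checked numerically for `t < 300`; if one is negative, `nlinarith`). -/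
def PO4_stmt : Prop := ∀ t n : ℕ, 11 ≤ t → 4 * t ≤ n + 9 → n < 4 * t →
  g3 (t : ℝ) * ((n : ℝ) * (n - 1) * (n - 2) * (n - 3)) + 4 * (t : ℝ) * (t - 1) * (t - 2) * ((n : ℝ) - t) ≤
    3 * (t : ℝ) * ((n : ℝ) - t) * ((n : ℝ) - t - 1) * ((n : ℝ) - 3)

/-- **RT3** (short). Three identities for binomials (write `n = m + t + 4`, `t = s + 3`; factorials or `Nat.succ_mul_choose_eq`, `Nat.choose_succ_right_eq`, `Nat.choose_mul_succ_eq`). -/
def RT3_stmt : Prop := ∀ n t : ℕ, 3 ≤ t → t + 4 ≤ n →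
  ((n - 3).choose (t - 1) : ℝ) * ((n : ℝ) * (n - 1) * (n - 2)) = t * ((n : ℝ) - t) * ((n : ℝ) - t - 1) * (n.choose t : ℝ) ∧
  ((n - 3).choose (t - 3) : ℝ) * ((n : ℝ) * (n - 1) * (n - 2)) = t * ((t : ℝ) - 1) * ((t : ℝ) - 2) * (n.choose t : ℝ) ∧
  ((n - 4).choose (t - 3) : ℝ) * ((n : ℝ) * (n - 1) * (n - 2) * (n - 3)) =
    t * ((t : ℝ) - 1) * ((t : ℝ) - 2) * ((n : ℝ) - t) * (n.choose t : ℝ)

/-- **G32** (short-medium, from PO3, PO4, RT3). `3 C(n-3,t-1) ≤ MV n t` (`Pool.Agent.NK.Base.block_le` in Pool/Agent/helper55/NK/Base.lean). `q = (n+1)/(t-2)` is 3 or 4 (`t ≥ 11`, `3t ≤ n < 4t`), and `q = 4` only if `4 t ≤ n + 9`.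
`q = 3`: multiply by `n (n-1)(n-2) > 0`, RT3 (first two) and PO3 times `(n-2)`: `(n-t)(n-t-1) - (t-1)(t-2) = (n-2t+1)(n-2)`. `q = 4`: multiply by `n (n-1)(n-2)(n-3)`, RT3 (first and third) and PO4. -/
def G32_stmt : Prop := ∀ n t : ℕ, 11 ≤ t → 3 * t ≤ n → n < 4 * t →
  g3 (t : ℝ) * (n.choose t : ℝ) + (MV n (t - 2) : ℝ) ≤ (MV n t : ℝ)

/-- **SM3** (short, finite check, from UNI of helper55/NK/Spec). By UNI it is enough to take `a = i (n+1)/t`, `b = n - a`, `n = a + b`, `t = i + j`; then `t ≤ 10`, `n < 40`: `decide +kernel` over all `t < 11`, `i < t`, `n < 40` (the numbers are small, but `Nat.choose` is slow in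
the kernel: use `(n.descFactorial k) / k.factorial`, `Nat.choose_eq_descFactorial_div_factorial`, if needed). -/
def SM3_stmt : Prop := ∀ a b i j : ℕ, 2 ≤ i → 2 ≤ j → i + j ≤ 10 → 3 * (i + j) ≤ a + b → a + b < 4 * (i + j) →
  ¬ (a + b = 12 ∧ i + j = 4) → a.choose i * b.choose j + MV (a + b) (i + j - 2) ≤ MV (a + b) (i + j)

/-- **MO3** (short). `s = t`: clear. `q = (n+1)/s`. `s ≥ 3`: `q ≤ (n+1)/3`, so `n - q ≥ 2 t`, and `C(n-q,s-1) ≤ C(n-q,t-1)` (`s - 1 ≤ t - 1 ≤ (n-q)/2`; as in Pool/Agent/helper35/NK/MON.lean). `s = 2`: `n - q ≥ t`, `C(n-q,1) = n - q ≤ C(n-q,t-1)` as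
`1 ≤ t - 1 ≤ n - q - 1`. Then `q C(n-q,t-1) ≤ MV n t` by `Pool.Agent.NK.Base.block_le`. -/
def MO3_stmt : Prop := ∀ n s t : ℕ, 2 ≤ s → s ≤ t → 3 * t ≤ n → MV n s ≤ MV n t

/-- **CH3** (medium, from G31, G32, SM3, MO3 and CH4 of helper37/NF/Spec). Same structure as CH4. Strong induction on `k`; `n = a + b`. `4 k ≤ n`: CH4. Otherwise: empty `C`: clear. Take the element `(i,j)` of `C` with the largest `c.1`; the others are strictly below it in
both coordinates. `i = 1` or `j = 1`: there are no others; `Pool.Agent.NK.Base.prod_le` and MO3. Else `t = i + j ≤ k`. If `4 t ≤ n`: CH4 for `C` and `t`, then MO3. If `n < 4 t`: the others have sums at most `t - 2`, so (induction, `k' = t - 2 ≥ 2`; not `(12,4)` as then `k ≥ 6`)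
their sum is at most `MV n (t-2)`; SM3 (`t ≤ 10`) or G31 + G32 (`t ≥ 11`), then MO3. (`n = 12`, `t = 4` would give `k = 4`, as `3 k ≤ 12`.) -/
def CH3_stmt : Prop := ∀ (a b k : ℕ) (C : Finset (ℕ × ℕ)), 2 ≤ k → 3 * k ≤ a + b → ¬ (a + b = 12 ∧ k = 4) →
  (∀ c ∈ C, 1 ≤ c.1 ∧ 1 ≤ c.2 ∧ c.1 + c.2 ≤ k) → IsCh C →
  ∑ c ∈ C, a.choose c.1 * b.choose c.2 ≤ MV (a + b) k

end Pool.Agent.helper37.NG
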